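import Mathlib
import Pool.Agent.Lib_helper90.FS.Defs

set_option autoImplicit false

/-! BLOCK FO: Følner sets for an extension with abelian kernel. -/

namespace Pool.Agent.H90.FS

universe u

private theorem fo_growth (q r : ℕ) (hq : 0 < q) (N : ℕ → ℕ) (h1 : 1 ≤ N 1)
    (hN : ∀ a, N a ≤ a ^ r) (hs : ∀ a, 1 ≤ a → (q + 1) * N a ≤ q * N (a + 1)) : False := by
  have hstep : ∀ n : ℕ, (q + 1) ^ n ≤ q ^ n * N (n + 1) := by
    intro n
    induction n with
    | zero => simpa using h1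
    | succ n ih =>
      have h2 := hs (n + 1) (by omega)
      calc (q + 1) ^ (n + 1) = (q + 1) * (q + 1) ^ n := by ring
        _ ≤ (q + 1) * (q ^ n * N (n + 1)) := Nat.mul_le_mul_left _ ih
        _ = q ^ n * ((q + 1) * N (n + 1)) := by ring
        _ ≤ q ^ n * (q * N (n + 1 + 1)) := Nat.mul_le_mul_left _ h2
        _ = q ^ (n + 1) * N (n + 1 + 1) := by ring
  have hq' : (0 : ℝ) < q := by exact_mod_cast hq
  set ρ : ℝ := (q + 1) / q with hρ
  have hρ1 : 1 < ρ := by rw [hρ, lt_div_iff₀ hq']; linarith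
  have hbd : ∀ n : ℕ, ρ ^ n ≤ ((n + 1 : ℕ) : ℝ) ^ r := by
    intro n
    have h3 := (hstep n).trans (Nat.mul_le_mul_left _ (hN (n + 1)))
    have h4 : ((q : ℝ) + 1) ^ n ≤ (q : ℝ) ^ n * ((n + 1 : ℕ) : ℝ) ^ r := by exact_mod_cast h3
    rw [hρ, div_pow, div_le_iff₀ (by positivity)]
    linarith
  have hlim := (tendsto_pow_const_div_const_pow_of_one_lt r hρ1).comp (Filter.tendsto_add_atTop_nat 1)
  have h5 := hlim.eventually (gt_mem_nhds (show (0 : ℝ) < 1 / ρ by positivity))
  obtain ⟨n, hn⟩ := h5.exists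
  simp only [Function.comp] at hn
  rw [div_lt_div_iff₀ (by positivity) (by positivity), pow_succ] at hn
  have h6 := hbd n
  have h7 : ρ ^ n * ρ ≤ ((n + 1 : ℕ) : ℝ) ^ r * ρ := mul_le_mul_of_nonneg_right h6 (by positivity)
  linarith

private theorem fo_comm {M : Type u} [CommGroup M] : Fol M := by
  classical
  intro K hK q
  lift K to Finset M using hK
  set E : ℕ → Finset M := fun a => (Fintype.piFinset (fun _ : K => Finset.range a)).image
    (fun v : K → ℕ => ∏ k : K, (k : M) ^ (v k)) with hE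
  have hmem : ∀ a x, x ∈ E a ↔ ∃ v : K → ℕ, (∀ k, v k < a) ∧ ∏ k : K, (k : M) ^ (v k) = x := by
    intro a x
    simp [hE]
  have hcard : ∀ a, (E a).card ≤ a ^ K.card := by
    intro a
    refine Finset.card_image_le.trans ?_
    simp
  have hone : ∀ a, 1 ≤ a → (1 : M) ∈ E a := fun a ha =>
    (hmem a 1).2 ⟨fun _ => 0, fun _ => ha, by simp⟩
  have hmono : ∀ a, E a ⊆ E (a + 1) := by
    intro a x hx
    obtain ⟨v, hv, rfl⟩ := (hmem a x).1 hx
    exact (hmem _ _).2 ⟨v, fun k => (hv k).trans (Nat.lt_succ_self a), rfl⟩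
  have hmul : ∀ a, ∀ f ∈ E a, ∀ k ∈ (K : Set M), f * k ∈ E (a + 1) := by
    intro a f hf k hk
    obtain ⟨v, hv, rfl⟩ := (hmem a f).1 hf
    refine (hmem _ _).2 ⟨fun j => v j + if j = ⟨k, hk⟩ then 1 else 0, fun j => ?_, ?_⟩
    · have := hv j
      show v j + (if j = ⟨k, hk⟩ then 1 else 0) < a + 1
      split_ifs <;> omega
    · simp only [pow_add, Finset.prod_mul_distrib]
      congr 1
      rw [Finset.prod_eq_single (⟨k, hk⟩ : K)]
      · simp
      · intro j _ hj
        simp [hj]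
      · intro h
        exact absurd (Finset.mem_univ _) h
  by_contra hcon
  have hcon' : ∀ a, 1 ≤ a → ¬ q * (E (a + 1) \ E a).card ≤ (E (a + 1)).card := by
    intro a ha hle
    refine hcon ⟨E (a + 1), E (a + 1) \ E a, Finset.sdiff_subset, ⟨1, hone _ (by omega)⟩, ?_, hle⟩
    intro f hf hfB k hk
    have : f ∈ E a := by
      by_contra hfa
      exact hfB (Finset.mem_sdiff.2 ⟨hf, hfa⟩)
    exact hmul a f this k hk
  have hq : 0 < q := by
    rcases Nat.eq_zero_or_pos q with rfl | h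
    · exact absurd (by simp) (hcon' 1 le_rfl)
    · exact h
  refine fo_growth q K.card hq (fun a => (E a).card) ?_ hcard ?_
  · exact Finset.card_pos.2 ⟨1, hone 1 le_rfl⟩
  · intro a ha
    have h1 := hcon' a ha
    have h2 := Finset.card_sdiff_of_subset (hmono a)
    have h3 := Finset.card_le_card (hmono a)
    rw [h2] at h1
    show (q + 1) * (E a).card ≤ q * (E (a + 1)).card
    push Not at h1
    obtain ⟨t, ht⟩ := Nat.exists_eq_add_of_le h3
    rw [ht] at h1 ⊢
    have h4 : (E a).card + t - (E a).card = t := by omega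
    rw [h4] at h1
    nlinarith

/-- BLOCK FO. Følner sets. -/
theorem fol_ext {Γ Γ' : Type u} [Group Γ] [Group Γ'] (π : Γ →* Γ') (hs : Function.Surjective π)
    (hπ : ∀ x y, π x = 1 → π y = 1 → x * y = y * x) (h : Fol Γ') : Fol Γ := by
  classical
  intro K hK q
  obtain ⟨s, hs'⟩ := hs.hasRightInverse
  have hs'' : ∀ g, π (s g) = g := hs'
  obtain ⟨E', B', hB', hE', hst, hq⟩ := h (π '' K) (hK.image _) (2 * q)
  let _ : CommGroup π.ker :=
    { (inferInstance : Group π.ker) with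
      mul_comm := fun a b => Subtype.ext (hπ a b a.2 b.2) }
  let b : Γ' → Γ → π.ker := fun g k => ⟨s g * k * (s (g * π k))⁻¹, by
    rw [MonoidHom.mem_ker, map_mul, map_mul, map_inv, hs'', hs'']; group⟩
  obtain ⟨EM, BM, hBM, hEM, hstM, hqM⟩ := fo_comm (M := π.ker) (Set.image2 b E' K)
    ((Finset.finite_toSet E').image2 _ hK) (2 * q)
  let φ : π.ker × Γ' → Γ := fun p => (p.1 : Γ) * s p.2
  have hφ : Function.Injective φ := by
    rintro ⟨m, g⟩ ⟨m', g'⟩ heq
    have heq' : (m : Γ) * s g = m' * s g' := heq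
    have h1 := congrArg π heq'
    rw [map_mul, map_mul, hs'', hs'', (MonoidHom.mem_ker).1 m.2, (MonoidHom.mem_ker).1 m'.2,
      one_mul, one_mul] at h1
    subst h1
    have h2 := mul_right_cancel heq'
    rw [Subtype.ext h2]
  refine ⟨(EM ×ˢ E').image φ, (BM ×ˢ E' ∪ EM ×ˢ B').image φ, ?_, ?_, ?_, ?_⟩
  · refine Finset.image_subset_image (Finset.union_subset ?_ ?_)
    · exact Finset.product_subset_product hBM le_rfl
    · exact Finset.product_subset_product le_rfl hB'
  · exact (hEM.product hE').image φ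
  · intro f hf hfB k hk
    obtain ⟨⟨m, g⟩, hmg, rfl⟩ := Finset.mem_image.1 hf
    obtain ⟨hm, hg⟩ := Finset.mem_product.1 hmg
    have hnot : (m, g) ∉ BM ×ˢ E' ∪ EM ×ˢ B' := fun hin => hfB (Finset.mem_image_of_mem φ hin)
    rw [Finset.mem_union, not_or] at hnot
    have hm' : m ∉ BM := fun hb => hnot.1 (Finset.mem_product.2 ⟨hb, hg⟩)
    have hg' : g ∉ B' := fun hb => hnot.2 (Finset.mem_product.2 ⟨hm, hb⟩)
    refine Finset.mem_image.2 ⟨(m * b g k, g * π k), Finset.mem_product.2 ⟨?_, ?_⟩, ?_⟩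
    · exact hstM m hm hm' _ ⟨g, hg, k, hk, rfl⟩
    · exact hst g hg hg' _ ⟨k, hk, rfl⟩
    · show ((m : Γ) * (s g * k * (s (g * π k))⁻¹)) * s (g * π k) = (m : Γ) * s g * k
      group
  · rw [Finset.card_image_of_injective _ hφ, Finset.card_image_of_injective _ hφ,
      Finset.card_product]
    have h1 : (BM ×ˢ E' ∪ EM ×ˢ B').card ≤ BM.card * E'.card + EM.card * B'.card := by
      refine (Finset.card_union_le _ _).trans ?_
      rw [Finset.card_product, Finset.card_product]
    have h2 : 2 * q * BM.card * E'.card ≤ EM.card * E'.card := Nat.mul_le_mul_right _ hqM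
    have h3 : EM.card * (2 * q * B'.card) ≤ EM.card * E'.card := Nat.mul_le_mul_left _ hq
    have h4 : q * (BM ×ˢ E' ∪ EM ×ˢ B').card ≤ q * (BM.card * E'.card + EM.card * B'.card) :=
      Nat.mul_le_mul_left _ h1
    nlinarith

end Pool.Agent.H90.FS
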